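import Pool.Agent.Helper44.TOT.Defs

/-!
TOT-W1x: the number of primes `p` in a dyadic block such that `p - 1` has a very large prime
factor.
-/

set_option autoImplicit false

namespace Pool.Agent.Helper82.TOT

open Pool.Agent.Helper44.TOT Filter Finset

/-- asymptotic facts -/
theorem n5_asym (k : ℕ) (v : ℝ) (hv : 0 < v) : ∃ Y0 : ℕ, ∀ y : ℕ, Y0 ≤ y →
    2 ≤ ll y ∧ (ll y) ^ k ≤ v / 8 * Real.log y ∧ 2 / v ≤ Real.log y ∧ 100 ≤ Real.log y := by
  have h1 : Tendsto (fun y : ℕ => Real.log (y : ℝ)) atTop atTop :=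
    Real.tendsto_log_atTop.comp tendsto_natCast_atTop_atTop
  have h2 : Tendsto (fun y : ℕ => ll y) atTop atTop := Real.tendsto_log_atTop.comp h1
  have h3 : ∀ᶠ L : ℝ in atTop, (Real.log L) ^ k ≤ v / 8 * L := by
    have h4 := (Real.isLittleO_pow_log_id_atTop (n := k)).def (c := v / 8) (by positivity)
    filter_upwards [h4, eventually_ge_atTop 1] with L hL hL1
    have h5 : 0 ≤ Real.log L := Real.log_nonneg hL1
    simp only [id_eq, Real.norm_eq_abs] at hL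
    rwa [abs_of_nonneg (pow_nonneg h5 k), abs_of_nonneg (by linarith)] at hL
  have h4 : ∀ᶠ y : ℕ in atTop, (ll y) ^ k ≤ v / 8 * Real.log y := h1.eventually h3
  have h5 := ((h2.eventually (eventually_ge_atTop 2)).and (h4.and
    ((h1.eventually (eventually_ge_atTop (2 / v))).and
      (h1.eventually (eventually_ge_atTop 100)))))
  exact eventually_atTop.mp h5

theorem n5_small {C A1 X0 : ℕ}
    (hPS : ∀ x : ℕ, X0 ≤ x → ∀ (Fs : Finset (ℕ × ℕ)) (X : ℕ) (S : Finset ℕ),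
      Fs.Nonempty → (Fs.card : ℝ) ≤ (ll x) ^ 1 →
      (∀ f ∈ Fs, 1 ≤ f.1 ∧ f.1 ≤ x ^ 2 ∧ f.2 ≤ x ^ 2) →
      (∀ f ∈ Fs, ∀ g ∈ Fs, f ≠ g → f.1 * g.2 ≠ g.1 * f.2) →
      (x : ℝ) ^ ((1 : ℝ) / 20) ≤ X →
      (∀ n ∈ S, n ≤ X ∧ ∀ f ∈ Fs, (f.1 * n + f.2).Prime ∧
        (x : ℝ) ^ ((1 : ℝ) / 60) ≤ ((f.1 * n + f.2 : ℕ) : ℝ)) →
      (S.card : ℝ) ≤ X * ((ll x) ^ C / Real.log x) ^ Fs.card)
    {y : ℕ} {v : ℝ} (hX0 : X0 ≤ y) (h1 : 2 ≤ ll y)
    (h2 : (ll y) ^ (2 * C + A1) ≤ v / 8 * Real.log y) (h100 : 100 ≤ Real.log y)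
    (hv : 0 < v) (hv4 : v ≤ 1 / 4) (S : Finset ℕ)
    (hS : ∀ p ∈ S, p.Prime ∧ p ≤ y ∧ ∃ m q : ℕ, q.Prime ∧ p = m * q + 1 ∧ 1 ≤ m ∧
      m ≤ ⌈Real.exp ((ll y) ^ A1)⌉₊ ∧ (y : ℝ) ^ ((3 : ℝ) / 4) ≤ q) :
    (S.card : ℝ) ≤ v / 2 * (y / Real.log y) := by
  classical
  obtain ⟨L, hL⟩ : ∃ L, L = Real.log y := ⟨_, rfl⟩
  obtain ⟨s, hs⟩ : ∃ s, s = ll y := ⟨_, rfl⟩
  obtain ⟨M1, hM1⟩ : ∃ M1, M1 = ⌈Real.exp (s ^ A1)⌉₊ := ⟨_, rfl⟩
  rw [← hs] at h1 h2 hS
  rw [← hL] at h2 h100 ⊢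
  rw [← hM1] at hS
  have hypos : (0 : ℝ) < y := by
    by_contra h
    have h3 : (y : ℝ) = 0 := le_antisymm (not_lt.mp h) (Nat.cast_nonneg y)
    rw [h3, Real.log_zero] at hL
    linarith
  have hy : Real.exp L = y := by rw [hL, Real.exp_log hypos]
  have hpow : ∀ c : ℝ, (y : ℝ) ^ c = Real.exp (c * L) := by
    intro c
    rw [Real.rpow_def_of_pos hypos, ← hL, mul_comm]
  have hsA : 1 ≤ s ^ A1 := one_le_pow₀ (by linarith)
  have hsC : 1 ≤ s ^ (2 * C) := one_le_pow₀ (by linarith)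
  have hsA2 : s ^ A1 ≤ L / 32 := by
    have h3 : s ^ A1 ≤ s ^ (2 * C + A1) := by
      rw [pow_add]
      nlinarith
    have h4 : v / 8 * L ≤ L / 32 := by nlinarith
    linarith
  have hM1b : (M1 : ℝ) ≤ Real.exp (s ^ A1 + 1) := by
    have h3 : (M1 : ℝ) < Real.exp (s ^ A1) + 1 := by
      rw [hM1]
      exact Nat.ceil_lt_add_one (Real.exp_pos _).le
    have h4 : 1 ≤ Real.exp (s ^ A1) := Real.one_le_exp (by linarith)
    have h5 : (2 : ℝ) ≤ Real.exp 1 := by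
      have := Real.add_one_le_exp (1 : ℝ)
      linarith
    rw [Real.exp_add]
    nlinarith
  have hM1c : (M1 : ℝ) ≤ Real.exp (L / 16) := by
    refine hM1b.trans (Real.exp_le_exp.mpr ?_)
    linarith
  have hM1pos : 1 ≤ M1 := by
    rw [hM1]
    exact Nat.one_le_ceil_iff.mpr (Real.exp_pos _)
  obtain ⟨Q, hQ⟩ : ∃ Q : ℕ → Finset ℕ, Q = fun m => (Finset.Icc 1 (y / m)).filter
      (fun q => q.Prime ∧ (m * q + 1).Prime ∧ (y : ℝ) ^ ((3 : ℝ) / 4) ≤ q) := ⟨_, rfl⟩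
  have hsub : S ⊆ (Finset.Icc 1 M1).biUnion (fun m => (Q m).image (fun q => m * q + 1)) := by
    intro p hp
    obtain ⟨hpp, hpy, m, q, hq, hpq, hm1, hmM, hqy⟩ := hS p hp
    rw [Finset.mem_biUnion]
    refine ⟨m, Finset.mem_Icc.mpr ⟨hm1, hmM⟩, ?_⟩
    rw [Finset.mem_image]
    refine ⟨q, ?_, hpq.symm⟩
    rw [hQ]
    simp only [Finset.mem_filter, Finset.mem_Icc]
    refine ⟨⟨hq.one_lt.le, ?_⟩, hq, hpq ▸ hpp, hqy⟩
    rw [Nat.le_div_iff_mul_le (by omega), mul_comm]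
    omega
  have hcard : ∀ m ∈ Finset.Icc 1 M1, ((Q m).card : ℝ) ≤ (y / m) * (s ^ C / L) ^ 2 := by
    intro m hm
    obtain ⟨hm1, hmM⟩ := Finset.mem_Icc.mp hm
    have hmpos : (0 : ℝ) < m := by exact_mod_cast hm1
    have hmM' : (m : ℝ) ≤ Real.exp (L / 16) := le_trans (by exact_mod_cast hmM) hM1c
    have hmy : m ≤ y := by
      have h3 : (m : ℝ) ≤ y := by
        rw [← hy]
        exact hmM'.trans (Real.exp_le_exp.mpr (by linarith))
      exact_mod_cast h3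
    have hy1 : 1 ≤ y := hm1.trans hmy
    have hyy : y ≤ y ^ 2 := by nlinarith
    have hcd : (({(1, 0), (m, 1)} : Finset (ℕ × ℕ))).card = 2 :=
      Finset.card_pair (by simp)
    have h3 := hPS y hX0 {(1, 0), (m, 1)} (y / m) (Q m) ⟨(1, 0), by simp⟩
      (by rw [hcd, ← hs]; norm_num; linarith)
      (by
        intro f hf
        simp only [Finset.mem_insert, Finset.mem_singleton] at hf
        rcases hf with rfl | rfl
        · exact ⟨le_refl _, hy1.trans hyy, Nat.zero_le _⟩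
        · exact ⟨hm1, hmy.trans hyy, hy1.trans hyy⟩)
      (by
        intro f hf g hg hfg
        simp only [Finset.mem_insert, Finset.mem_singleton] at hf hg
        rcases hf with rfl | rfl <;> rcases hg with rfl | rfl
        · exact absurd rfl hfg
        · simp
        · simp
        · exact absurd rfl hfg)
      (by
        rw [hpow]
        have h4 : (y : ℝ) / m < ((y / m : ℕ) : ℝ) + 1 := by
          rw [← Nat.floor_div_eq_div (K := ℝ)]
          exact Nat.lt_floor_add_one _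
        have h5 : Real.exp (15 * L / 16) ≤ (y : ℝ) / m := by
          rw [le_div_iff₀ hmpos, ← hy]
          calc Real.exp (15 * L / 16) * m ≤ Real.exp (15 * L / 16) * Real.exp (L / 16) :=
                mul_le_mul_of_nonneg_left hmM' (Real.exp_pos _).le
            _ = Real.exp L := by rw [← Real.exp_add]; congr 1; ring
        have h6 : 2 ≤ Real.exp (L / 20) := by
          have := Real.add_one_le_exp (L / 20)
          linarith
        have h7 : Real.exp (L / 20) * Real.exp (L / 20) ≤ Real.exp (15 * L / 16) := by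
          rw [← Real.exp_add]
          exact Real.exp_le_exp.mpr (by linarith)
        have h8 : Real.exp (1 / 20 * L) = Real.exp (L / 20) := by congr 1; ring
        rw [h8]
        nlinarith)
      (by
        intro n hn
        rw [hQ] at hn
        simp only [Finset.mem_filter, Finset.mem_Icc] at hn
        obtain ⟨⟨hn1, hn2⟩, hnp, hnp', hny⟩ := hn
        have h4 : (y : ℝ) ^ ((1 : ℝ) / 60) ≤ n := by
          refine le_trans ?_ hny
          rw [hpow, hpow]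
          exact Real.exp_le_exp.mpr (by linarith)
        refine ⟨hn2, fun f hf => ?_⟩
        simp only [Finset.mem_insert, Finset.mem_singleton] at hf
        rcases hf with rfl | rfl
        · refine ⟨by simpa using hnp, ?_⟩
          simpa using h4
        · refine ⟨hnp', h4.trans ?_⟩
          have h5 : n ≤ m * n + 1 := by nlinarith
          exact_mod_cast h5)
    rw [hcd, ← hs, ← hL] at h3
    refine h3.trans ?_
    refine mul_le_mul_of_nonneg_right ?_ (by positivity)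
    exact Nat.cast_div_le
  have hsum : ((S.card : ℕ) : ℝ) ≤ ∑ m ∈ Finset.Icc 1 M1, (y / (m : ℝ)) * (s ^ C / L) ^ 2 := by
    have h3 : S.card ≤ ∑ m ∈ Finset.Icc 1 M1, (Q m).card := by
      refine (Finset.card_le_card hsub).trans (Finset.card_biUnion_le.trans ?_)
      exact Finset.sum_le_sum fun m _ => Finset.card_image_le
    calc ((S.card : ℕ) : ℝ) ≤ ((∑ m ∈ Finset.Icc 1 M1, (Q m).card : ℕ) : ℝ) := by
          exact_mod_cast h3
      _ = ∑ m ∈ Finset.Icc 1 M1, ((Q m).card : ℝ) := by push_cast; rfl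
      _ ≤ _ := Finset.sum_le_sum hcard
  have hharm : ∑ m ∈ Finset.Icc 1 M1, (1 : ℝ) / m ≤ 3 * s ^ A1 := by
    have h3 := harmonic_le_one_add_log M1
    rw [harmonic_eq_sum_Icc] at h3
    push_cast at h3
    have h4 : Real.log M1 ≤ s ^ A1 + 1 := by
      rw [Real.log_le_iff_le_exp (by exact_mod_cast hM1pos)]
      exact hM1b
    have h5 : ∑ m ∈ Finset.Icc 1 M1, (1 : ℝ) / m = ∑ m ∈ Finset.Icc 1 M1, ((m : ℝ))⁻¹ :=
      Finset.sum_congr rfl fun m _ => one_div _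
    rw [h5]
    linarith
  have hLpos : 0 < L := by linarith
  have hfin : ∑ m ∈ Finset.Icc 1 M1, (y / (m : ℝ)) * (s ^ C / L) ^ 2 =
      y * (s ^ C / L) ^ 2 * ∑ m ∈ Finset.Icc 1 M1, (1 : ℝ) / m := by
    rw [Finset.mul_sum]
    refine Finset.sum_congr rfl fun m _ => ?_
    ring
  rw [hfin] at hsum
  refine hsum.trans ?_
  calc (y : ℝ) * (s ^ C / L) ^ 2 * ∑ m ∈ Finset.Icc 1 M1, (1 : ℝ) / m
      ≤ y * (s ^ C / L) ^ 2 * (3 * s ^ A1) := mul_le_mul_of_nonneg_left hharm (by positivity)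
    _ = 3 * y / L ^ 2 * s ^ (2 * C + A1) := by
        rw [pow_add, pow_mul' s 2 C, div_pow]
        ring
    _ ≤ 3 * y / L ^ 2 * (v / 8 * L) := mul_le_mul_of_nonneg_left h2 (by positivity)
    _ = 3 / 8 * (v * (y / L)) := by
        field_simp
    _ ≤ v / 2 * (y / L) := by
        have h3 : 0 ≤ v * (y / L) := by positivity
        nlinarith

theorem n5_big {C2 Cp : ℝ} {A1 X1 : ℕ} (hC2 : 1 ≤ C2) (hCp : 1 ≤ Cp)
    (hCh : ∀ y : ℕ, 2 ≤ y →
      ((Finset.Icc 1 y).filter Nat.Prime).card ≤ Cp * (y / Real.log y))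
    (hCL : ∀ x : ℕ, X1 ≤ x →
      ∀ (a M : ℕ) (Y μ : ℝ) (E : Finset ℕ) (T : Finset (ℕ × ℕ)),
      (a = 1 ∨ (a.Prime ∧ Real.exp ((ll x) ^ A1) ≤ a)) → Real.exp ((ll x) ^ A1) ≤ M →
      (x : ℝ) ^ ((1 : ℝ) / 4) ≤ Y →
      (∀ q ∈ E, q.Prime ∧ (x : ℝ) ^ ((1 : ℝ) / 5) ≤ q ∧ (q : ℝ) ≤ 2 * Y) →
      Real.exp (-(ll x) ^ 1) ≤ μ → (E.card : ℝ) ≤ μ * Y / Real.log x →
      (∀ t ∈ T, t.1 ∈ E ∧ M / 2 < t.2 ∧ t.2 ≤ M ∧ (a * t.2 * t.1 + 1).Prime) →
      (T.card : ℝ) ≤ C2 * μ * (1 + max 0 (-Real.log μ)) * Y * M / (Real.log x) ^ 2)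
    {y : ℕ} {v : ℝ} (hX1 : X1 ≤ y) (h1 : 2 ≤ ll y) (h100 : 100 ≤ Real.log y)
    (hv : 0 < v) (hv4 : v ≤ 1 / 4) (hvL : 2 / v ≤ Real.log y) (S : Finset ℕ)
    (hS : ∀ p ∈ S, p.Prime ∧ p ≤ y ∧ ∃ m q : ℕ, q.Prime ∧ p = m * q + 1 ∧
      ⌈Real.exp ((ll y) ^ A1)⌉₊ < m ∧ (y : ℝ) ^ (1 - v) ≤ q) :
    (S.card : ℝ) ≤ 10 * C2 * Cp * v * (y / Real.log y) := by
  classical
  obtain ⟨L, hL⟩ : ∃ L, L = Real.log y := ⟨_, rfl⟩
  obtain ⟨s, hs⟩ : ∃ s, s = ll y := ⟨_, rfl⟩
  rw [← hs] at h1 hS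
  rw [← hL] at h100 hvL ⊢
  have hLpos : 0 < L := by linarith
  have hypos : (0 : ℝ) < y := by
    by_contra h
    have h3 : (y : ℝ) = 0 := le_antisymm (not_lt.mp h) (Nat.cast_nonneg y)
    rw [h3, Real.log_zero] at hL
    linarith
  have hy : Real.exp L = y := by rw [hL, Real.exp_log hypos]
  have hpow : ∀ c : ℝ, (y : ℝ) ^ c = Real.exp (c * L) := by
    intro c
    rw [Real.rpow_def_of_pos hypos, ← hL, mul_comm]
  have hlog2 : 0 < Real.log 2 := Real.log_pos (by norm_num)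
  have hlog2' : 0.6931471803 < Real.log 2 := Real.log_two_gt_d9
  obtain ⟨J, hJ⟩ : ∃ J : ℕ, J = ⌊v * L / Real.log 2⌋₊ + 2 := ⟨_, rfl⟩
  obtain ⟨Js, hJs⟩ : ∃ Js : Finset ℕ, Js = (Finset.range J).filter
    (fun j => Real.exp (s ^ A1) ≤ (2 : ℝ) ^ j ∧ (2 : ℝ) ^ j ≤ 2 * Real.exp (v * L)) := ⟨_, rfl⟩
  obtain ⟨E, hE⟩ : ∃ E : ℕ → Finset ℕ, E = fun j =>
      (Finset.Icc (1 : ℕ) ⌊2 * ((y : ℝ) / 2 ^ j)⌋₊).filter
      (fun q : ℕ => q.Prime ∧ (y : ℝ) ^ ((1 : ℝ) / 5) ≤ (q : ℝ)) := ⟨_, rfl⟩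
  obtain ⟨T, hT⟩ : ∃ T : ℕ → Finset (ℕ × ℕ), T = fun j =>
      ((E j) ×ˢ (Finset.Ioc (2 ^ j / 2) (2 ^ j))).filter
      (fun t => (1 * t.2 * t.1 + 1).Prime) := ⟨_, rfl⟩
  have hsub : S ⊆ Js.biUnion (fun j => (T j).image (fun t => 1 * t.2 * t.1 + 1)) := by
    intro p hp
    obtain ⟨hpp, hpy, m, q, hq, hpq, hmM, hqy⟩ := hS p hp
    have hqpos : 0 < q := hq.pos
    have hm1 : 1 ≤ m := by omega
    have hm2 : 2 ≤ m := by
      have : 1 ≤ ⌈Real.exp (s ^ A1)⌉₊ := Nat.one_le_ceil_iff.mpr (Real.exp_pos _)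
      omega
    have hmle : (m : ℝ) ≤ Real.exp (v * L) := by
      have h3 : (m : ℝ) * q ≤ y := by
        have : m * q ≤ y := by omega
        exact_mod_cast this
      rw [hpow] at hqy
      have h4 : (m : ℝ) * Real.exp ((1 - v) * L) ≤ Real.exp L := by
        rw [hy]
        exact (mul_le_mul_of_nonneg_left hqy (Nat.cast_nonneg m)).trans h3
      have h5 : Real.exp L = Real.exp (v * L) * Real.exp ((1 - v) * L) := by
        rw [← Real.exp_add]; congr 1; ring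
      rw [h5] at h4
      exact le_of_mul_le_mul_right h4 (Real.exp_pos _)
    have hj1 : m ≤ 2 ^ Nat.clog 2 m := Nat.le_pow_clog (by norm_num) m
    have hj2 : 2 ^ (Nat.clog 2 m - 1) < m := Nat.pow_pred_clog_lt_self (by norm_num) hm2
    have hclog : 1 ≤ Nat.clog 2 m := Nat.clog_pos (by norm_num) hm2
    obtain ⟨j, hj⟩ : ∃ j, Nat.clog 2 m = j + 1 := ⟨Nat.clog 2 m - 1, by omega⟩
    rw [hj] at hj1 hj2
    simp only [Nat.add_sub_cancel] at hj2
    rw [Finset.mem_biUnion]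
    refine ⟨j + 1, ?_, ?_⟩
    · rw [hJs]
      simp only [Finset.mem_filter, Finset.mem_range]
      have h3 : (2 : ℝ) ^ (j + 1) ≤ 2 * Real.exp (v * L) := by
        have h4 : (2 : ℝ) ^ j ≤ m := by exact_mod_cast hj2.le
        rw [pow_succ]
        linarith
      refine ⟨?_, ?_, h3⟩
      · rw [hJ]
        have h4 : (2 : ℝ) ^ j ≤ Real.exp (v * L) := by
          have h5 : (2 : ℝ) ^ j ≤ m := by exact_mod_cast hj2.le
          linarith
        have h5 : (j : ℝ) * Real.log 2 ≤ v * L := by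
          have h6 := Real.log_le_log (by positivity) h4
          rwa [Real.log_pow, Real.log_exp] at h6
        have h6 : j ≤ ⌊v * L / Real.log 2⌋₊ := by
          apply Nat.le_floor
          rw [le_div_iff₀ hlog2]
          exact h5
        omega
      · have h4 : Real.exp (s ^ A1) ≤ m := by
          have h5 := Nat.le_ceil (Real.exp (s ^ A1))
          have h6 : ((⌈Real.exp (s ^ A1)⌉₊ : ℕ) : ℝ) ≤ m := by exact_mod_cast hmM.le
          linarith
        refine h4.trans ?_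
        exact_mod_cast hj1
    · rw [Finset.mem_image]
      refine ⟨(q, m), ?_, by simp [hpq]⟩
      rw [hT]
      simp only [Finset.mem_filter, Finset.mem_product, Finset.mem_Ioc]
      refine ⟨⟨?_, ?_, hj1⟩, by rw [one_mul, ← hpq]; exact hpp⟩
      · rw [hE]
        simp only [Finset.mem_filter, Finset.mem_Icc]
        refine ⟨⟨hq.one_lt.le, ?_⟩, hq, ?_⟩
        · apply Nat.le_floor
          have h3 : (m : ℝ) * q ≤ y := by
            have : m * q ≤ y := by omega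
            exact_mod_cast this
          have h4 : (2 : ℝ) ^ j < m := by exact_mod_cast hj2
          have h5 : 2 * ((y : ℝ) / 2 ^ (j + 1)) = y / 2 ^ j := by
            rw [pow_succ]
            field_simp
          rw [h5, le_div_iff₀ (by positivity)]
          have h6 : (0 : ℝ) < q := by exact_mod_cast hqpos
          nlinarith
        · refine le_trans ?_ hqy
          rw [hpow, hpow]
          exact Real.exp_le_exp.mpr (by nlinarith)
      · have h3 : 2 ^ (j + 1) / 2 = 2 ^ j := by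
          rw [pow_succ]; simp
        rw [h3]
        exact hj2
  have hcard : ∀ j ∈ Js, ((T j).card : ℝ) ≤ 4 * C2 * Cp * y / L ^ 2 := by
    intro j hj
    rw [hJs] at hj
    simp only [Finset.mem_filter, Finset.mem_range] at hj
    obtain ⟨-, hj1, hj2⟩ := hj
    have h2j : (0 : ℝ) < 2 ^ j := by positivity
    have hYlow : Real.exp (L / 2) ≤ (y : ℝ) / 2 ^ j := by
      rw [le_div_iff₀ h2j, ← hy]
      have h3 : (2 : ℝ) ≤ Real.exp 1 := by
        have := Real.add_one_le_exp (1 : ℝ)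
        linarith
      calc Real.exp (L / 2) * 2 ^ j ≤ Real.exp (L / 2) * (2 * Real.exp (v * L)) :=
            mul_le_mul_of_nonneg_left hj2 (Real.exp_pos _).le
        _ ≤ Real.exp (L / 2) * (Real.exp 1 * Real.exp (v * L)) :=
            mul_le_mul_of_nonneg_left (mul_le_mul_of_nonneg_right h3 (Real.exp_pos _).le)
              (Real.exp_pos _).le
        _ = Real.exp (L / 2 + (1 + v * L)) := by rw [Real.exp_add, Real.exp_add]
        _ ≤ Real.exp L := Real.exp_le_exp.mpr (by nlinarith)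
    have hYpos : 0 < (y : ℝ) / 2 ^ j := by positivity
    obtain ⟨Z, hZ⟩ : ∃ Z : ℕ, Z = ⌊2 * ((y : ℝ) / 2 ^ j)⌋₊ := ⟨_, rfl⟩
    have hZle : (Z : ℝ) ≤ 2 * ((y : ℝ) / 2 ^ j) := by
      rw [hZ]
      exact Nat.floor_le (by positivity)
    have hZge : Real.exp (L / 2) ≤ Z := by
      have h3 : 2 * ((y : ℝ) / 2 ^ j) < Z + 1 := by
        rw [hZ]
        exact Nat.lt_floor_add_one _
      have h4 : 1 ≤ Real.exp (L / 2) := Real.one_le_exp (by linarith)
      linarith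
    have hZ2 : 2 ≤ Z := by
      have h3 : (2 : ℝ) ≤ Z := by
        have := Real.add_one_le_exp (L / 2)
        linarith
      exact_mod_cast h3
    have hlogZ : L / 2 ≤ Real.log Z := by
      rw [Real.le_log_iff_exp_le (by positivity)]
      exact hZge
    have hEcard : ((E j).card : ℝ) ≤ 4 * Cp * ((y : ℝ) / 2 ^ j) / L := by
      have h3 : (E j).card ≤ ((Finset.Icc 1 Z).filter Nat.Prime).card := by
        apply Finset.card_le_card
        intro q hq
        rw [hE] at hq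
        simp only [Finset.mem_filter, ← hZ] at hq ⊢
        exact ⟨hq.1, hq.2.1⟩
      have h4 := hCh Z hZ2
      have h5 : ((E j).card : ℝ) ≤ (((Finset.Icc 1 Z).filter Nat.Prime).card : ℝ) := by
        exact_mod_cast h3
      refine h5.trans (h4.trans ?_)
      have h6 : (Z : ℝ) / Real.log Z ≤ 2 * ((y : ℝ) / 2 ^ j) / (L / 2) :=
        div_le_div₀ (by positivity) hZle (by linarith) hlogZ
      calc Cp * (Z / Real.log Z) ≤ Cp * (2 * ((y : ℝ) / 2 ^ j) / (L / 2)) :=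
            mul_le_mul_of_nonneg_left h6 (by linarith)
        _ = 4 * Cp * ((y : ℝ) / 2 ^ j) / L := by field_simp; ring
    have h3 := hCL y hX1 1 (2 ^ j) ((y : ℝ) / 2 ^ j) (4 * Cp) (E j) (T j) (Or.inl rfl)
      (by rw [← hs]; push_cast; exact hj1)
      (by
        rw [hpow]
        refine le_trans (Real.exp_le_exp.mpr ?_) hYlow
        linarith)
      (by
        intro q hq
        rw [hE] at hq
        simp only [Finset.mem_filter, Finset.mem_Icc] at hq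
        refine ⟨hq.2.1, hq.2.2, ?_⟩
        exact le_trans (by exact_mod_cast hq.1.2) (Nat.floor_le (by positivity)))
      (by
        have h4 : Real.exp (-(ll y) ^ 1) ≤ 1 := by
          rw [← hs]
          apply Real.exp_le_one_iff.mpr
          linarith
        linarith)
      (by rw [← hL]; exact hEcard)
      (by
        intro t ht
        rw [hT] at ht
        simp only [Finset.mem_filter, Finset.mem_product, Finset.mem_Ioc] at ht
        exact ⟨ht.1.1, ht.1.2.1, ht.1.2.2, ht.2⟩)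
    have h4 : max 0 (-Real.log (4 * Cp)) = 0 := by
      apply max_eq_left
      have := Real.log_nonneg (show (1 : ℝ) ≤ 4 * Cp by linarith)
      linarith
    rw [h4, ← hL] at h3
    refine h3.trans (le_of_eq ?_)
    push_cast
    field_simp
    ring
  have hJcard : ((Js.card : ℕ) : ℝ) ≤ v * L / Real.log 2 + 2 := by
    have h3 : Js.card ≤ J := by
      rw [hJs]
      exact (Finset.card_filter_le _ _).trans (by rw [Finset.card_range])
    have h4 : (J : ℝ) ≤ v * L / Real.log 2 + 2 := by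
      rw [hJ]
      push_cast
      have := Nat.floor_le (show 0 ≤ v * L / Real.log 2 by positivity)
      linarith
    have h5 : ((Js.card : ℕ) : ℝ) ≤ J := by exact_mod_cast h3
    linarith
  have h3 : S.card ≤ ∑ j ∈ Js, (T j).card := by
    refine (Finset.card_le_card hsub).trans (Finset.card_biUnion_le.trans ?_)
    exact Finset.sum_le_sum fun m _ => Finset.card_image_le
  have h4 : (S.card : ℝ) ≤ Js.card * (4 * C2 * Cp * y / L ^ 2) := by
    calc (S.card : ℝ) ≤ ((∑ j ∈ Js, (T j).card : ℕ) : ℝ) := by exact_mod_cast h3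
      _ = ∑ j ∈ Js, ((T j).card : ℝ) := by push_cast; rfl
      _ ≤ ∑ _j ∈ Js, (4 * C2 * Cp * y / L ^ 2) := Finset.sum_le_sum hcard
      _ = _ := by rw [Finset.sum_const, nsmul_eq_mul]
  refine h4.trans ?_
  have h5 : v * L / Real.log 2 + 2 ≤ 5 / 2 * v * L := by
    have h6 : 2 ≤ v * L := by
      rw [div_le_iff₀ hv] at hvL
      linarith
    have h7 : v * L / Real.log 2 ≤ 1.4427 * (v * L) := by
      rw [div_le_iff₀ hlog2]
      nlinarith
    nlinarith
  have h6 : 0 ≤ 4 * C2 * Cp * y / L ^ 2 := by positivity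
  calc (Js.card : ℝ) * (4 * C2 * Cp * y / L ^ 2)
      ≤ (5 / 2 * v * L) * (4 * C2 * Cp * y / L ^ 2) :=
        mul_le_mul_of_nonneg_right (hJcard.trans h5) h6
    _ = 10 * C2 * Cp * v * (y / L) := by
        field_simp
        ring

/-- TOT-W1x -/
theorem n5 (hPS : PS) (hCL0 : CL0) (hCheb : Cheb) : N5 := by
  classical
  obtain ⟨C2, hC2, hCL⟩ := hCL0
  obtain ⟨Cp, hCp, hCh⟩ := hCheb
  obtain ⟨A1, X1, hCL⟩ := hCL 1
  obtain ⟨C, X2, hPS⟩ := hPS 1
  refine ⟨10 * C2 * Cp + 1, by nlinarith, fun v hv hv4 => ?_⟩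
  obtain ⟨Y0, hY0⟩ := n5_asym (2 * C + A1) v hv
  refine ⟨max (max X1 X2) Y0, fun y S hy hS => ?_⟩
  have hX1 : X1 ≤ y := le_trans (le_trans (le_max_left _ _) (le_max_left _ _)) hy
  have hX2 : X2 ≤ y := le_trans (le_trans (le_max_right _ _) (le_max_left _ _)) hy
  obtain ⟨h1, h2, hvL, h100⟩ := hY0 y (le_trans (le_max_right _ _) hy)
  have hypos : (0 : ℝ) < y := by
    by_contra h
    have h3 : (y : ℝ) = 0 := le_antisymm (not_lt.mp h) (Nat.cast_nonneg y)
    rw [h3, Real.log_zero] at h100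
    linarith
  have hy1 : (1 : ℝ) ≤ y := by
    have : 0 < y := by exact_mod_cast hypos
    exact_mod_cast this
  have hdec : ∀ p ∈ S, ∃ m q : ℕ, q.Prime ∧ p = m * q + 1 ∧ 1 ≤ m ∧ (y : ℝ) ^ (1 - v) ≤ q := by
    intro p hp
    obtain ⟨hpp, hy2, hpy, q, hq, ⟨m, hm⟩, hqy⟩ := hS p hp
    have hp1 := hpp.one_lt
    refine ⟨m, q, hq, by rw [mul_comm]; omega, ?_, hqy⟩
    rcases Nat.eq_zero_or_pos m with h0 | h0
    · rw [h0, mul_zero] at hm
      omega
    · exact h0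
  obtain ⟨P1, hP1⟩ : ∃ P1 : ℕ → Prop, P1 = fun p => ∃ m q : ℕ, q.Prime ∧ p = m * q + 1 ∧ 1 ≤ m ∧
      m ≤ ⌈Real.exp ((ll y) ^ A1)⌉₊ ∧ (y : ℝ) ^ (1 - v) ≤ q := ⟨_, rfl⟩
  have hs1 := n5_small (hPS := hPS) hX2 h1 h2 h100 hv hv4 (S.filter P1) (by
    intro p hp
    obtain ⟨hpS, hp1⟩ := Finset.mem_filter.mp hp
    rw [hP1] at hp1
    obtain ⟨m, q, hq, hpq, hm1, hmM, hqy⟩ := hp1
    refine ⟨(hS p hpS).1, (hS p hpS).2.2.1, m, q, hq, hpq, hm1, hmM, le_trans ?_ hqy⟩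
    exact Real.rpow_le_rpow_of_exponent_le hy1 (by linarith))
  have hs2 := n5_big hC2 hCp hCh hCL hX1 h1 h100 hv hv4 hvL (S.filter (fun p => ¬ P1 p)) (by
    intro p hp
    obtain ⟨hpS, hp1⟩ := Finset.mem_filter.mp hp
    obtain ⟨m, q, hq, hpq, hm1, hqy⟩ := hdec p hpS
    refine ⟨(hS p hpS).1, (hS p hpS).2.2.1, m, q, hq, hpq, ?_, hqy⟩
    by_contra hcon
    apply hp1
    rw [hP1]
    exact ⟨m, q, hq, hpq, hm1, not_lt.mp hcon, hqy⟩)
  have h3 : S.card = (S.filter P1).card + (S.filter (fun p => ¬ P1 p)).card :=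
    (Finset.card_filter_add_card_filter_not P1).symm
  rw [h3]
  push_cast
  have h4 : 0 ≤ v * (y / Real.log y) := by positivity
  nlinarith

end Pool.Agent.Helper82.TOT
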